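import Mathlib
import Pool.Agent.X122.UTS

/-!
# MP_051359_an: no common frequently universal Taylor series for the compact sets of an annulus
-/

namespace Pool.Agent.Results.MP_051359_an.AnnulusEmpty

open Set Filter Topology Metric Pool.Agent.X122.UTS

/-- The partial sum `S_n(f)(z) = ∑_{k ≤ n} a_k z^k` of the Taylor series of `f` at `0`. -/
noncomputable def S (n : ℕ) (f : ℂ → ℂ) (z : ℂ) : ℂ :=
  ∑ k ∈ Finset.range (n + 1), iteratedDeriv k f 0 / (k.factorial : ℂ) * z ^ k

lemma S_continuous (n : ℕ) (f : ℂ → ℂ) : Continuous (S n f) := by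
  unfold S
  fun_prop

/-- The restriction of `S_n(f)` to `K` as a continuous function. -/
noncomputable def restrS (n : ℕ) (f : ℂ → ℂ) (K : Set ℂ) : C(K, ℂ) :=
  ⟨fun z => S n f z, (S_continuous n f).comp continuous_subtype_val⟩

/-- The space `A(K)` inside `C(K, ℂ)` (for compact `K` the topology of `C(K, ℂ)` is that of the
supremum norm). -/
def A (K : Set ℂ) : Set C(K, ℂ) :=
  {g | ∃ G : ℂ → ℂ, (∀ z : K, G z = g z) ∧ DifferentiableOn ℂ G (interior K)}

/-- The lower density of a set of natural numbers. -/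
noncomputable def lowerDensity (E : Set ℕ) : ℝ :=
  liminf (fun N : ℕ => ((E ∩ Set.Iic N).ncard : ℝ) / ((N : ℝ) + 1)) atTop

/-- The set `FU(𝔻, K)` of `K`-frequently universal Taylor series: for every open `U` meeting
`A(K)` the set of `n` with `S_n(f)|_K ∈ U` has positive lower density. -/
def FU (K : Set ℂ) : Set (ℂ → ℂ) :=
  {f | DifferentiableOn ℂ f (ball 0 1) ∧ ∀ U : Set C(K, ℂ), IsOpen U → (U ∩ A K).Nonempty →
    0 < lowerDensity {n | restrS n f K ∈ U}}

/-- The family `𝓜(r, R)`. -/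
def M (r R : ℝ) : Set (Set ℂ) :=
  {K | IsCompact K ∧ K ⊆ (ball 0 1)ᶜ ∧ IsConnected Kᶜ ∧ ∀ z ∈ K, r ≤ ‖z‖ ∧ ‖z‖ ≤ R}

/-! ### The two kinds of compact sets -/

lemma singleton_mem {r R : ℝ} (hr : 1 ≤ r) (hrR : r < R) : {((r : ℝ) : ℂ)} ∈ M r R := by
  have hn : ‖((r : ℝ) : ℂ)‖ = r := by
    rw [Complex.norm_real, Real.norm_eq_abs, abs_of_pos (by linarith)]
  refine ⟨isCompact_singleton, ?_, ?_, ?_⟩
  · intro z hz
    rw [mem_singleton_iff] at hz
    rw [hz, mem_compl_iff, mem_ball_zero_iff, hn]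
    linarith
  · exact isConnected_compl_singleton_of_one_lt_rank (by
      rw [Complex.rank_real_complex]; norm_num) _
  · intro z hz
    rw [mem_singleton_iff] at hz
    rw [hz, hn]
    exact ⟨le_rfl, hrR.le⟩

lemma strip_convex {h : ℝ} : Convex ℝ {z : ℂ | z.re < 0 ∧ |z.im| < h} := by
  intro x hx y hy a b ha hb hab
  obtain ⟨hx1, hx2⟩ := hx
  obtain ⟨hy1, hy2⟩ := hy
  rw [abs_lt] at hx2 hy2
  simp only [mem_setOf_eq, Complex.add_re, Complex.real_smul, Complex.mul_re, Complex.ofReal_re,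
    Complex.ofReal_im, zero_mul, sub_zero, Complex.add_im, Complex.mul_im, add_zero]
  rw [abs_lt]
  rcases eq_or_lt_of_le ha with h0 | h0
  · have : b = 1 := by linarith
    subst this
    rw [← h0]
    simp only [zero_mul, zero_add, one_mul]
    exact ⟨hy1, hy2⟩
  · refine ⟨by nlinarith, by nlinarith, by nlinarith⟩

lemma outer_preconnected (R : ℝ) (hR : 0 ≤ R) : IsPreconnected {z : ℂ | R < ‖z‖} := by
  have himg : {z : ℂ | R < ‖z‖} =
      (fun p : ℝ × ℝ => (p.1 : ℂ) * Complex.exp (p.2 * Complex.I)) '' (Ioi R ×ˢ univ) := by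
    ext z
    simp only [mem_setOf_eq, mem_image, mem_prod, mem_Ioi, mem_univ, and_true, Prod.exists]
    constructor
    · intro hz
      exact ⟨‖z‖, z.arg, hz, Complex.norm_mul_exp_arg_mul_I z⟩
    · rintro ⟨a, b, ha, rfl⟩
      rw [norm_mul, Complex.norm_exp_ofReal_mul_I, mul_one, Complex.norm_real, Real.norm_eq_abs,
        abs_of_pos (by linarith)]
      exact ha
  rw [himg]
  apply IsPreconnected.image
  · exact isPreconnected_Ioi.prod isPreconnected_univ
  · apply Continuous.continuousOn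
    fun_prop

lemma Kh_mem {r R h : ℝ} (hr : 1 ≤ r) (hrR : r < R) (hh : 0 < h) : Kh r R h ∈ M r R := by
  have hclosed : IsClosed (Kh r R h) := by
    have e : Kh r R h = {z | r ≤ ‖z‖} ∩ {z | ‖z‖ ≤ R} ∩ {z | z.re < 0 ∧ |z.im| < h}ᶜ := by
      ext z
      simp only [Kh, mem_setOf_eq, mem_inter_iff, mem_compl_iff, and_assoc]
    rw [e]
    refine ((isClosed_le continuous_const continuous_norm).inter
      (isClosed_le continuous_norm continuous_const)).inter ?_
    apply IsOpen.isClosed_compl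
    exact (isOpen_lt Complex.continuous_re continuous_const).inter
      (isOpen_lt (Complex.continuous_im.abs) continuous_const)
  refine ⟨?_, ?_, ?_, ?_⟩
  · apply (isCompact_closedBall (0 : ℂ) R).of_isClosed_subset hclosed
    intro z hz
    rw [mem_closedBall_zero_iff]
    exact hz.2.1
  · intro z hz
    rw [mem_compl_iff, mem_ball_zero_iff]
    have := hz.1
    linarith
  · have e : (Kh r R h)ᶜ = (ball (0 : ℂ) r ∪ {z : ℂ | z.re < 0 ∧ |z.im| < h}) ∪
        {z : ℂ | R < ‖z‖} := by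
      ext z
      simp only [Kh, mem_compl_iff, mem_setOf_eq, mem_union, mem_ball_zero_iff]
      constructor
      · intro hz
        by_contra hcon
        push Not at hcon
        obtain ⟨⟨h1, h2⟩, h3⟩ := hcon
        exact hz ⟨h1, h3, fun h4 => absurd h4.2 (not_lt.mpr (h2 h4.1))⟩
      · rintro ((h1 | h1) | h1) ⟨h2, h3, h4⟩
        · linarith
        · exact h4 h1
        · linarith
    rw [e]
    refine ⟨⟨0, Or.inl (Or.inl (by rw [mem_ball_zero_iff, norm_zero]; linarith))⟩, ?_⟩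
    have h1 : IsPreconnected (ball (0 : ℂ) r ∪ {z : ℂ | z.re < 0 ∧ |z.im| < h}) := by
      refine IsPreconnected.union (((-(1 / 2) : ℝ)) : ℂ) ?_ ?_ (convex_ball _ _).isPreconnected
        strip_convex.isPreconnected
      · rw [mem_ball_zero_iff, Complex.norm_real]
        norm_num
        linarith
      · simp only [mem_setOf_eq, Complex.ofReal_re, Complex.ofReal_im, abs_zero]
        exact ⟨by norm_num, hh⟩
    refine IsPreconnected.union ((-(R + 1) : ℝ) : ℂ) ?_ ?_ h1 (outer_preconnected R (by linarith))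
    · refine Or.inr ?_
      simp only [mem_setOf_eq, Complex.ofReal_re, Complex.ofReal_im, abs_zero]
      exact ⟨by linarith, hh⟩
    · simp only [mem_setOf_eq, Complex.norm_real, Real.norm_eq_abs, abs_neg]
      rw [abs_of_pos (by linarith)]
      linarith
  · intro z hz
    exact ⟨hz.1, hz.2.1⟩

/-! ### Densities -/

lemma density_bdd (E : Set ℕ) : IsBoundedUnder (· ≥ ·) atTop
    (fun N : ℕ => ((E ∩ Set.Iic N).ncard : ℝ) / ((N : ℝ) + 1)) :=
  ⟨0, by simp only [eventually_map]; exact Eventually.of_forall fun N => by positivity⟩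

lemma density_le_one (E : Set ℕ) (N : ℕ) : ((E ∩ Set.Iic N).ncard : ℝ) / ((N : ℝ) + 1) ≤ 1 := by
  rw [div_le_one (by positivity)]
  have h1 : (E ∩ Set.Iic N).ncard ≤ (Set.Iic N).ncard :=
    Set.ncard_le_ncard inter_subset_right (Set.finite_Iic N)
  have h2 : (Set.Iic N).ncard = N + 1 := by
    rw [← Finset.coe_Iic, Set.ncard_coe_finset, Nat.card_Iic]
  rw [h2] at h1
  exact_mod_cast h1

/-- A set of positive lower density is infinite. -/
lemma infinite_of_pos {E : Set ℕ} (h : 0 < lowerDensity E) : ∃ᶠ n in atTop, n ∈ E := by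
  by_contra hcon
  rw [not_frequently] at hcon
  obtain ⟨N₀, hN₀⟩ := eventually_atTop.mp hcon
  have hle : ∀ N : ℕ, ((E ∩ Set.Iic N).ncard : ℝ) / ((N : ℝ) + 1) ≤ (N₀ : ℝ) / ((N : ℝ) + 1) := by
    intro N
    apply div_le_div_of_nonneg_right _ (by positivity)
    have h1 : E ∩ Set.Iic N ⊆ Set.Iio N₀ := by
      intro n hn
      by_contra h2
      exact hN₀ n (not_lt.mp h2) hn.1
    have h2 : (E ∩ Set.Iic N).ncard ≤ (Set.Iio N₀).ncard :=
      Set.ncard_le_ncard h1 (Set.finite_Iio N₀)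
    have h3 : (Set.Iio N₀).ncard = N₀ := by
      rw [← Finset.coe_Iio, Set.ncard_coe_finset, Nat.card_Iio]
    rw [h3] at h2
    exact_mod_cast h2
  have hlim : Tendsto (fun N : ℕ => (N₀ : ℝ) / ((N : ℝ) + 1)) atTop (𝓝 0) := by
    have h3 : Tendsto (fun n : ℕ => (n : ℝ) + 1) atTop atTop :=
      tendsto_atTop_add_const_right _ _ tendsto_natCast_atTop_atTop
    exact h3.const_div_atTop _
  have hlow : lowerDensity E ≤ 0 := by
    unfold lowerDensity
    rw [← hlim.liminf_eq]
    exact liminf_le_liminf (Eventually.of_forall hle) (density_bdd E) hlim.isCoboundedUnder_ge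
  linarith

/-- If for infinitely many `n` the set `E` misses `[c n, n]`, then its lower density is at
most `c`. -/
lemma density_le {E : Set ℕ} {c : ℝ} (hc : 0 < c)
    (h : ∃ᶠ n : ℕ in atTop, ∀ k : ℕ, c * n ≤ k → k ≤ n → k ∉ E) : lowerDensity E ≤ c := by
  by_contra hcon
  push Not at hcon
  obtain ⟨b, hcb, hb⟩ := exists_between hcon
  have hev := eventually_lt_of_lt_liminf hb (density_bdd E)
  have hlarge : ∀ᶠ n : ℕ in atTop, 1 / (b - c) < (n : ℝ) :=
    tendsto_natCast_atTop_atTop.eventually_gt_atTop _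
  obtain ⟨n, ⟨hn1, hn2⟩, hn3⟩ := ((h.and_eventually hev).and_eventually hlarge).exists
  have hsub : E ∩ Set.Iic n ⊆ Set.Iio ⌈c * n⌉₊ := by
    intro k hk
    by_contra h2
    rw [mem_Iio, not_lt] at h2
    exact hn1 k (Nat.ceil_le.mp h2) hk.2 hk.1
  have hcard : (E ∩ Set.Iic n).ncard ≤ ⌈c * n⌉₊ := by
    refine le_trans (Set.ncard_le_ncard hsub (Set.finite_Iio _)) (le_of_eq ?_)
    rw [← Finset.coe_Iio, Set.ncard_coe_finset, Nat.card_Iio]
  have hcard2 : ((E ∩ Set.Iic n).ncard : ℝ) < c * n + 1 :=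
    lt_of_le_of_lt (by exact_mod_cast hcard) (Nat.ceil_lt_add_one (by positivity))
  rw [lt_div_iff₀ (by positivity)] at hn2
  rw [div_lt_iff₀ (by linarith)] at hn3
  nlinarith

/-- For all `1 ≤ r < R` no function is a `K`-frequently universal Taylor series for all
`K ∈ 𝓜(r, R)`. -/
theorem result : ∀ r R : ℝ, 1 ≤ r → r < R → (⋂ K ∈ M r R, FU K) = ∅ := by
  intro r R hr hrR
  rw [eq_empty_iff_forall_notMem]
  intro f hf
  rw [mem_iInter₂] at hf
  -- Cauchy bound on the coefficients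
  have hfd : DifferentiableOn ℂ f (ball 0 1) := (hf _ (singleton_mem hr hrR)).1
  set a : ℕ → ℂ := fun k => iteratedDeriv k f 0 / (k.factorial : ℂ) with ha
  have hSa : ∀ n z, S n f z = ps a n z := fun n z => rfl
  obtain ⟨C₀, hC₀, hab⟩ : ∃ C₀ : ℝ, 0 ≤ C₀ ∧ ∀ k, ‖a k‖ ≤ C₀ * 2 ^ k := by
    have hcb : closedBall (0 : ℂ) (1 / 2) ⊆ ball 0 1 := closedBall_subset_ball (by norm_num)
    have hcont : ContinuousOn f (closedBall 0 (1 / 2)) := (hfd.mono hcb).continuousOn
    obtain ⟨C, hC⟩ := (isCompact_closedBall (0 : ℂ) (1 / 2)).exists_bound_of_continuousOn hcont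
    refine ⟨C, le_trans (norm_nonneg _) (hC 0 (mem_closedBall_self (by norm_num))), fun k => ?_⟩
    have hd : DiffContOnCl ℂ f (ball 0 (1 / 2)) := by
      apply DifferentiableOn.diffContOnCl
      rw [closure_ball _ (by norm_num)]
      exact hfd.mono hcb
    have h1 := Complex.norm_iteratedDeriv_le_of_forall_mem_sphere_norm_le k
      (by norm_num : (0 : ℝ) < 1 / 2) hd (fun z hz => hC z (sphere_subset_closedBall hz))
    have hfac : (0 : ℝ) < k.factorial := by exact_mod_cast k.factorial_pos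
    simp only [ha]
    rw [norm_div, Complex.norm_natCast, div_le_iff₀ hfac]
    refine le_trans h1 (le_of_eq ?_)
    rw [one_div, inv_pow, div_inv_eq_mul]
    ring
  -- the test set E₀
  have h0 : 0 < lowerDensity {n | restrS n f {((r : ℝ) : ℂ)} ∈
      {g : C(({((r : ℝ) : ℂ)} : Set ℂ), ℂ) | MapsTo g univ (ball (10 : ℂ) 1)}} := by
    apply (hf _ (singleton_mem hr hrR)).2
    · exact ContinuousMap.isOpen_setOfPred_mapsTo (isCompact_univ) isOpen_ball
    · refine ⟨ContinuousMap.const _ 10, ?_, fun _ => 10, fun _ => rfl, by fun_prop⟩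
      intro x _
      simp
  set c : ℝ := lowerDensity {n | restrS n f {((r : ℝ) : ℂ)} ∈
      {g : C(({((r : ℝ) : ℂ)} : Set ℂ), ℂ) | MapsTo g univ (ball (10 : ℂ) 1)}} / 2 with hc
  have hc0 : 0 < c := by rw [hc]; linarith
  obtain ⟨h, hh, n₀, hcore⟩ := core a hC₀ hab hr hrR hc0
  have hKc : CompactSpace (Kh r R h) := isCompact_iff_compactSpace.mp (Kh_mem hr hrR hh).1
  have h1 : 0 < lowerDensity {n | restrS n f (Kh r R h) ∈
      {g : C(Kh r R h, ℂ) | MapsTo g univ (ball (0 : ℂ) 1)}} := by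
    apply (hf _ (Kh_mem hr hrR hh)).2
    · exact ContinuousMap.isOpen_setOfPred_mapsTo (isCompact_univ) isOpen_ball
    · refine ⟨ContinuousMap.const _ 0, ?_, fun _ => 0, fun _ => rfl, by fun_prop⟩
      intro x _
      simp
  have hfreq := infinite_of_pos h1
  have hle : lowerDensity {n | restrS n f {((r : ℝ) : ℂ)} ∈
      {g : C(({((r : ℝ) : ℂ)} : Set ℂ), ℂ) | MapsTo g univ (ball (10 : ℂ) 1)}} ≤ c := by
    apply density_le hc0
    refine (hfreq.and_eventually (eventually_ge_atTop n₀)).mono ?_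
    rintro n ⟨hn1, hn2⟩ k hk1 hk2 hkE
    have hb : ∀ z ∈ Kh r R h, ‖ps a n z‖ ≤ 1 := by
      intro z hz
      have := hn1 (mem_univ (⟨z, hz⟩ : Kh r R h))
      rw [mem_ball_zero_iff] at this
      rw [← hSa]
      exact this.le
    have h2 := hcore n hn2 hb k hk1 hk2
    have h3 := hkE (mem_univ (⟨((r : ℝ) : ℂ), mem_singleton _⟩ : ({((r : ℝ) : ℂ)} : Set ℂ)))
    rw [mem_ball, dist_eq_norm] at h3
    change ‖S k f (r : ℂ) - 10‖ < 1 at h3
    rw [hSa] at h3
    have h4 : ‖(10 : ℂ)‖ ≤ ‖ps a k (r : ℂ)‖ + ‖ps a k (r : ℂ) - 10‖ := by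
      have := norm_sub_le (ps a k (r : ℂ)) (ps a k (r : ℂ) - 10)
      rwa [sub_sub_cancel] at this
    have h5 : ‖(10 : ℂ)‖ = 10 := by simp
    rw [h5] at h4
    linarith
  rw [hc] at hle
  linarith

end Pool.Agent.Results.MP_051359_an.AnnulusEmpty
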